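import Pool.Agent.Lib.MP_b5e4d4_co.AE.Main
import Pool.Agent.Lib.MP_b5e4d4_co.FT.S1

set_option autoImplicit false

/-!
# The labelled self-converse digraphs: generating function and complete asymptotic expansion

`Arc V` is the set of the ordered pairs of different points of `V`. The group `G V = Perm V × ℤˣ` acts on it: `(π, 1)` maps `(u, v)` to
`(π u, π v)`, `(π, -1)` maps `(u, v)` to `(π v, π u)`; `S V` is the subgroup of the elements of sign `1`; `orb H` is the number of orbits of a
subgroup `H` on the arcs, `P0 H = {π | (π, 1) ∈ H}`, `Mv H` is the set of the points which are moved by `P0 H`, and `no H` the number of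
orbits of `P0 H` on the points. The weights (`IsW`) are integers `w H`, for all subgroups `H` of `G V`, with `∑ L ≤ H, w L = 1` if `H` has
an element of sign `-1`, and `= 0` otherwise.

A group `H` which is not contained in `S V` acts outside `Mv H` by a single involution `τ`, and it is determined by `τ` and by its
restriction to `Mv H`, which has the same weight. So the sum over `H` in the exact formula `s p = ∑ H, w H * 2 ^ orb H` becomes a sum over
the groups `H` without fixed points on `m ≤ p` points, the numbers `γ(m, o)`, multiplied by `2 ^ (o (p - m) + (p - m).choose 2)` and by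
`a (p - m)`, where `a n = ∑ k, n! / (k! (n - 2 k)!)` is the sum of `2 ^ (number of 2-cycles)` over the involutions. The exponent of `2`
drops by about `(m - o) p`, so sorting by `j = m - o` gives an asymptotic expansion; here `j ≤ m ≤ 2 j`. For the error term a group with
few orbits on the points is replaced by a subgroup with few generators and still few orbits.
-/

namespace Pool.Agent.Results.MP_b5e4d4_co.Expansion

open Equiv Pool.Agent.MP_b5e4d4_co.FP Pool.Agent.MP_b5e4d4_co.AE

/-- the number of labelled self-converse digraphs with point set `Fin p` -/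
noncomputable def s (p : ℕ) : ℕ :=
  Nat.card {A : Finset (Fin p × Fin p) // (∀ e ∈ A, e.1 ≠ e.2) ∧
    ∃ σ : Equiv.Perm (Fin p), ∀ u v : Fin p, (u, v) ∈ A ↔ (σ v, σ u) ∈ A}

/-- There is exactly one family of weights `w`. Put `γ(m, o) = gam w m o`: the sum of `w H * 2 ^ orb H` over the subgroups `H` of
`G (Fin m)` which have an element of sign `-1` and for which `P0 H` has no fixed point and exactly `o` orbits. Then `γ(0, 0) = 1`,
`γ(2, 1) = -2`, `γ(3, 1) = -4`, and `γ(m, o) = 0` if `m < 2 o` or `o = 0 < m`. Let `t j p` be the sum over `m ∈ [j, 2 j]` of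
`p.choose m * γ(m, m - j) * 2 ^ ((m - j) (p - m) + (p - m).choose 2) * a (p - m)`.
(1) `s p = ∑ j ≤ p, t j p` for all `p`. (2) `s p / (p! 2 ^ (p.choose 2))` is the coefficient of `X ^ p` in `∑ j ≤ p, Γ_j(X) A(X / 2 ^ j)`,
where `A(X) = ∑ a n X ^ n / n! = exp(X) exp(X ^ 2)` and `Γ_j` is the polynomial `∑ m ∈ [j, 2 j], γ(m, m - j) X ^ m / (m! 2 ^ (m.choose 2))`.
(3) For every `J` there is `C` such that `|s p - ∑ j ≤ J, t j p| ≤ C p ^ (J + 1) 2 ^ (p.choose 2) a p / 2 ^ ((J + 1) p)` for all `p ≥ 1`. -/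
theorem result :
    (∃! w : (m : ℕ) → Subgroup (G (Fin m)) → ℤ, ∀ m, IsW (w m)) ∧
    A = PowerSeries.exp ℚ *
      PowerSeries.mk (fun n => if Even n then (1 : ℚ) / ((n / 2).factorial) else 0) ∧
    ∀ w : (m : ℕ) → Subgroup (G (Fin m)) → ℤ, (∀ m, IsW (w m)) →
      (gam w 0 0 = 1 ∧ gam w 2 1 = -2 ∧ gam w 3 1 = -4 ∧
        ∀ m o : ℕ, (m < 2 * o ∨ o = 0 ∧ 0 < m) → gam w m o = 0) ∧
      (∀ p : ℕ, (s p : ℤ) = ∑ j ∈ Finset.range (p + 1), t (gam w) j p) ∧
      (∀ p : ℕ, (s p : ℚ) / (p.factorial * 2 ^ (p.choose 2)) = ∑ j ∈ Finset.range (p + 1),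
        PowerSeries.coeff p
          ((Gam (gam w) j : PowerSeries ℚ) * PowerSeries.rescale ((1 / 2 : ℚ) ^ j) A)) ∧
      (∀ J : ℕ, ∃ C : ℝ, ∀ p : ℕ, 1 ≤ p →
        |(s p : ℝ) - ∑ j ∈ Finset.range (J + 1), (t (gam w) j p : ℝ)| ≤
          C * (p : ℝ) ^ (J + 1) * 2 ^ (p.choose 2) * a p / 2 ^ ((J + 1) * p)) := by
  have hs : ∀ p : ℕ, s p = Nat.card {D : Arc (Fin p) → Bool // SC D} :=
    Pool.Agent.MP_b5e4d4_co.FT.card_arcs_eq
  refine ⟨?_, D6_A, fun w hw => ⟨⟨D5_one w hw, (D5v w hw).1, (D5v w hw).2, ?_⟩, ?_, ?_, ?_⟩⟩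
  · refine ⟨fun m => Classical.choose (A1_exists (Fin m)),
      fun m => Classical.choose_spec (A1_exists (Fin m)), fun w hw => ?_⟩
    funext m
    exact A1_unique _ _ (hw m) (Classical.choose_spec (A1_exists (Fin m)))
  · rintro m o (h | ⟨rfl, h⟩)
    · exact D5_zero w m o h
    · exact D5_zero' w m h
  · intro p
    rw [hs p]
    exact M_exact w hw p
  · intro p
    have h := M_exact w hw p
    rw [← hs p] at h
    have h1 : (s p : ℚ) = ∑ j ∈ Finset.range (p + 1), (t (gam w) j p : ℚ) := by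
      have h2 : ((s p : ℤ) : ℚ) = ((∑ j ∈ Finset.range (p + 1), t (gam w) j p : ℤ) : ℚ) := by
        rw [h]
      rw [Int.cast_natCast, Int.cast_sum] at h2
      exact h2
    rw [h1, Finset.sum_div]
    refine Finset.sum_congr rfl fun j _ => ?_
    rw [D6_t]
  · intro J
    obtain ⟨C, hC⟩ := M_sharp w hw J
    refine ⟨C, fun p hp => ?_⟩
    have h := hC p hp
    rw [← hs p] at h
    have h1 : (((|((s p : ℕ) : ℤ) - ∑ j ∈ Finset.range (J + 1), t (gam w) j p| *
        2 ^ ((J + 1) * p) : ℤ)) : ℝ) ≤ (((C : ℤ) * p ^ (J + 1) * 2 ^ p.choose 2 * a p : ℤ) : ℝ) :=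
      Int.cast_le.2 h
    rw [le_div_iff₀ (by positivity)]
    push_cast at h1
    exact h1

end Pool.Agent.Results.MP_b5e4d4_co.Expansion
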