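import Pool.Agent.Lib.MP_b5e4d4_co.FP.Main

set_option autoImplicit false

/-!
# A fixed-point formula for the labelled self-converse digraphs

`Arc V` is the set of the ordered pairs of different points of `V`. The group `G V = Perm V × ℤˣ` acts on it: `(π, 1)` maps
`(u, v)` to `(π u, π v)`, `(π, -1)` maps `(u, v)` to `(π v, π u)`. A digraph is a function `D : Arc V → Bool`, a `κ`-coloured digraph
a function `D : Arc V → κ`; `stab D` is the group of the `g` with `D (g • e) = D e` for all `e`, and `D` is self-converse
(`SC D`) if `stab D` has an element of sign `-1`. A subgroup `K` is closed if it contains every `g` which maps every orbit of `K` on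
the arcs into itself; `orb K` is the number of the orbits of `K` on the arcs.

The theorem gives an exact formula for the number of the labelled self-converse digraphs with `2 ^ O(p log² p)` terms: every
group which acts on `N` points has a subgroup with the same orbits which is generated by `⌈log₂ N⌉` elements (adding a random
element halves the excess of the number of orbits), so there are few closed subgroups.
-/

namespace Pool.Agent.Results.MP_b5e4d4_co.FixedPointFormulas

open Equiv Pool.Agent.MP_b5e4d4_co.FP

open scoped Classical in
/-- (1) For every `p` there is exactly one integer function `W` on the closed subgroups of `G (Fin p)` such that the sum of `W L`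
over the closed `L ≤ K` is `1` if `K` has an element of sign `-1`, and `0` otherwise; for all finite `κ` and all functions
`f` on the `κ`-coloured digraphs the sum of `f` over the self-converse ones is `∑ K, W K * ∑ D fixed by K, f D`, and their number is
`∑ K, W K * |κ| ^ orb K`. (2) There are at most `(2 p!) ^ ⌈log₂ (p (p - 1))⌉` closed subgroups. -/
theorem result :
    (∀ p : ℕ, ∃ W : Subgroup (G (Fin p)) → ℤ,
      (∀ K : Subgroup (G (Fin p)), Closed K →
        ∑ L : Subgroup (G (Fin p)) with Closed L ∧ L ≤ K, W L = if K ≤ S (Fin p) then 0 else 1) ∧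
      (∀ W' : Subgroup (G (Fin p)) → ℤ, (∀ K : Subgroup (G (Fin p)), Closed K →
        ∑ L : Subgroup (G (Fin p)) with Closed L ∧ L ≤ K, W' L = if K ≤ S (Fin p) then 0 else 1) →
        ∀ K, Closed K → W' K = W K) ∧
      (∀ (κ : Type) [Fintype κ] (f : (Arc (Fin p) → κ) → ℂ),
        ∑ D with SC D, f D =
          ∑ K : Subgroup (G (Fin p)) with Closed K, (W K : ℂ) * ∑ D with K ≤ stab D, f D) ∧
      (∀ (κ : Type) [Fintype κ],
        (Nat.card {D : Arc (Fin p) → κ // SC D} : ℤ) =
          ∑ K : Subgroup (G (Fin p)) with Closed K, W K * (Fintype.card κ : ℤ) ^ orb K)) ∧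
    (∀ p : ℕ, Nat.card {K : Subgroup (G (Fin p)) // Closed K} ≤
      (2 * p.factorial) ^ Nat.clog 2 (p * (p - 1))) := by
  refine ⟨fun p => ?_, card_closed⟩
  obtain ⟨W, hW⟩ := W1_exists (V := Fin p)
  refine ⟨W, ?_, ?_, ?_, ?_⟩
  · intro K hK
    refine (Finset.sum_congr ?_ fun _ _ => rfl).trans ((hW K hK).trans ?_)
    · ext L
      simp only [Finset.mem_filter, Finset.mem_univ, true_and]
    · by_cases h : K ≤ S (Fin p)
      · rw [if_pos h]
      · rw [if_neg h]
  · intro W' hW' K hK
    refine W1_unique W' W ?_ hW K hK
    intro K hK
    refine (Finset.sum_congr ?_ fun _ _ => rfl).trans ((hW' K hK).trans ?_)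
    · ext L
      simp only [Finset.mem_filter, Finset.mem_univ, true_and]
    · by_cases h : K ≤ S (Fin p)
      · rw [if_pos h]
      · rw [if_neg h]
  · intro κ _ f
    refine (Finset.sum_congr ?_ fun _ _ => rfl).trans ((W1_formula W hW f).trans
      (Finset.sum_congr ?_ fun K _ => ?_))
    · ext D
      simp only [Finset.mem_filter, Finset.mem_univ, true_and]
    · ext D
      simp only [Finset.mem_filter, Finset.mem_univ, true_and]
    · refine congrArg (fun z => (W K : ℂ) * z) (Finset.sum_congr ?_ fun _ _ => rfl)
      ext D
      simp only [Finset.mem_filter, Finset.mem_univ, true_and]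
  · intro κ _
    refine (W1_count W hW).trans (Finset.sum_congr ?_ fun K _ => rfl)
    ext D
    simp only [Finset.mem_filter, Finset.mem_univ, true_and]

end Pool.Agent.Results.MP_b5e4d4_co.FixedPointFormulas
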