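import Pool.Agent.Lib.MP_b5e4d4_co.FP.Main

set_option autoImplicit false

/-!
# Fixed-point formulas for the labelled self-converse digraphs need many terms

`Arc V` is the set of the ordered pairs of different points of `V`. The group `G V = Perm V × ℤˣ` acts on it: `(π, 1)` maps
`(u, v)` to `(π u, π v)`, `(π, -1)` maps `(u, v)` to `(π v, π u)`. A digraph is a function `D : Arc V → Bool`; `stab D` is the
group of the `g` with `D (g • e) = D e` for all `e`, and `D` is self-converse (`SC D`) if `stab D` has an element of sign `-1`.

The unlabelled self-converse digraphs were counted by a fixed-point formula (Burnside's lemma) with a term for every partition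
of `p`. The theorem shows that a fixed-point formula for the labelled self-converse digraphs (an identity which holds for all
weights which are invariant under isomorphism) has at least `(p!) ^ (1 / 128)` terms: the proof uses elementary abelian
2-subgroups of `G V` all of whose subgroups are stabilisers of digraphs, and the parity of the Möbius weights.
-/

namespace Pool.Agent.Results.MP_b5e4d4_co.TermLowerBound

open Equiv Pool.Agent.MP_b5e4d4_co.FP

open scoped Classical in
/-- Let `p ≥ 8192`. If the sets `X i ⊆ G (Fin p)` and the numbers `w i`, `i < n`, satisfy
`∑ D self-converse, f D = ∑ i, w i * ∑ D fixed by X i, f D` for all isomorphism-invariant functions `f` on the digraphs, then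
`p! ≤ n ^ 128`. -/
theorem result :
    ∀ p : ℕ, 8192 ≤ p → ∀ (n : ℕ) (X : Fin n → Set (G (Fin p))) (w : Fin n → ℂ),
      (∀ f : (Arc (Fin p) → Bool) → ℂ, (∀ (π : Perm (Fin p)) D, f (relabel π D) = f D) →
        ∑ D with SC D, f D = ∑ i, w i * ∑ D with X i ⊆ stab D, f D) →
      p.factorial ≤ n ^ 128 := by
  intro p hp n X w hF
  refine lower p hp n X w ?_
  intro f hf
  refine (Finset.sum_congr ?_ fun _ _ => rfl).trans ((hF f hf).trans
    (Finset.sum_congr rfl fun i _ => ?_))
  · ext D
    simp only [Finset.mem_filter, Finset.mem_univ, true_and]
  · refine congrArg (fun z => w i * z) (Finset.sum_congr ?_ fun _ _ => rfl)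
    ext D
    simp only [Finset.mem_filter, Finset.mem_univ, true_and]

end Pool.Agent.Results.MP_b5e4d4_co.TermLowerBound
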